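import Pool.Agent.H8.AV3.Stmts2
import Pool.Agent.H33.AVS.TRS

/-!
# Board `av3b`, modules INF3 and LAV
-/

set_option autoImplicit false

namespace Pool.Agent.H87.AV3B

open Polynomial Matrix Pool.AVR Pool.AV3 Pool.AVS.TRS WeierstrassCurve.Affine

theorem pow_inj {L : Type} [Field L] {O : ValuationSubring L} {π : L} (h : AVS.Loc L O π) :
    Function.Injective (fun n : ℕ => π ^ n) := by
  have key : ∀ k : ℕ, π ^ (k + 1) ≠ 1 := by
    intro k hk
    have h1 : π⁻¹ ∉ O := (h.unif π h.pi_mem h.pi_ne).2 (by rw [div_self h.pi_ne]; exact O.one_mem)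
    apply h1
    have h2 : π⁻¹ = π ^ k := by
      have h3 : π * π ^ k = 1 := by rw [← hk, pow_succ]; ring
      exact (eq_inv_of_mul_eq_one_right h3).symm
    rw [h2]
    exact pow_mem h.pi_mem _
  have key2 : ∀ i j : ℕ, i < j → π ^ i ≠ π ^ j := by
    intro i j hij he
    obtain ⟨k, rfl⟩ := Nat.exists_eq_add_of_lt hij
    have h3 : π ^ (i + k + 1) = π ^ i * π ^ (k + 1) := by ring
    rw [h3] at he
    have h4 : π ^ (k + 1) = 1 := by
      have h5 : π ^ i * 1 = π ^ i * π ^ (k + 1) := by rw [mul_one]; exact he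
      exact (mul_left_cancel₀ (pow_ne_zero _ h.pi_ne) h5).symm
    exact key k h4
  intro i j hij
  by_contra hne
  rcases Nat.lt_or_gt_of_ne hne with h1 | h1
  · exact key2 i j h1 hij
  · exact key2 j i h1 hij.symm

/-- Points with large abscissa. -/
theorem big_pt {L : Type} [Field L] {O : ValuationSubring L} {π : L} (h : AVS.Loc L O π)
    (a b c : L) : ∃ N : ℕ, ∀ j : ℕ, N ≤ j → ∃ y : L, y ^ 2 = (1 / (π ^ j) ^ 2) ^ 3 +
      a * (1 / (π ^ j) ^ 2) ^ 2 + b * (1 / (π ^ j) ^ 2) + c := by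
  obtain ⟨Na, hNa⟩ := small h a
  obtain ⟨Nb, hNb⟩ := small h b
  obtain ⟨Nc, hNc⟩ := small h c
  refine ⟨max Na (max Nb Nc), fun j hj => ?_⟩
  obtain ⟨p, hp⟩ : ∃ p : L, p = π ^ j := ⟨_, rfl⟩
  have hp0 : p ≠ 0 := by rw [hp]; exact pow_ne_zero _ h.pi_ne
  have ha : a * p ^ 2 / π ∈ O := by
    rw [hp, ← pow_mul]
    exact hNa _ (by omega)
  have hb : b * p ^ 4 / π ∈ O := by
    rw [hp, ← pow_mul]
    exact hNb _ (by omega)
  have hc : c * p ^ 6 / π ∈ O := by
    rw [hp, ← pow_mul]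
    exact hNc _ (by omega)
  have hO : ∀ x : L, x / π ∈ O → x ∈ O := by
    intro x hx
    have h1 := O.mul_mem _ _ hx h.pi_mem
    rwa [div_mul_cancel₀ _ h.pi_ne] at h1
  obtain ⟨a', ha'⟩ : ∃ a' : O, (a' : L) = a * p ^ 2 := ⟨⟨_, hO _ ha⟩, rfl⟩
  obtain ⟨b', hb'⟩ : ∃ b' : O, (b' : L) = b * p ^ 4 := ⟨⟨_, hO _ hb⟩, rfl⟩
  obtain ⟨c', hc'⟩ : ∃ c' : O, (c' : L) = c * p ^ 6 := ⟨⟨_, hO _ hc⟩, rfl⟩
  have ma : a' ∈ IsLocalRing.maximalIdeal O := mem_max h _ (by rw [ha']; exact ha)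
  have mb : b' ∈ IsLocalRing.maximalIdeal O := mem_max h _ (by rw [hb']; exact hb)
  have mc : c' ∈ IsLocalRing.maximalIdeal O := mem_max h _ (by rw [hc']; exact hc)
  obtain ⟨d, hd⟩ : ∃ d : O, (d : L) = (2 : L)⁻¹ := ⟨⟨_, h.two.2⟩, rfl⟩
  have hd2 : 2 * d = 1 := by
    apply Subtype.ext
    change (2 : L) * (d : L) = 1
    rw [hd, mul_inv_cancel₀ h.two.1]
  have hens := h.hens
  obtain ⟨u, hu1, hu2⟩ := hens.is_henselian (X ^ 2 - C (1 + a' + b' + c') : O[X])
    (monic_X_pow_sub_C _ two_ne_zero) 1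
    (by
      rw [eval_sub, eval_pow, eval_X, eval_C]
      have h1 : (1 : O) ^ 2 - (1 + a' + b' + c') = -(a' + b' + c') := by ring
      rw [h1]
      exact neg_mem (add_mem (add_mem ma mb) mc))
    (by
      rw [derivative_sub, derivative_C, sub_zero, derivative_X_pow, eval_mul, eval_C, eval_pow,
        eval_X, one_pow, mul_one]
      exact IsUnit.of_mul_eq_one d (by push_cast; exact hd2))
  have hu : u ^ 2 = 1 + a' + b' + c' := by
    have h1 : eval u (X ^ 2 - C (1 + a' + b' + c') : O[X]) = 0 := hu1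
    rw [eval_sub, eval_pow, eval_X, eval_C] at h1
    exact sub_eq_zero.1 h1
  have hu' : (u : L) ^ 2 = 1 + a * p ^ 2 + b * p ^ 4 + c * p ^ 6 := by
    rw [← ha', ← hb', ← hc']
    have h1 := congrArg (Subtype.val) hu
    exact h1
  refine ⟨(u : L) / p ^ 3, ?_⟩
  rw [← hp]
  field_simp
  linear_combination hu'

theorem disc_E {L : Type} [Field L] (a b c : L) : (E a b c).Δ = 16 * disc a b c := by
  simp only [E, WeierstrassCurve.Δ, WeierstrassCurve.b₂, WeierstrassCurve.b₄,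
    WeierstrassCurve.b₆, WeierstrassCurve.b₈, disc]
  ring

/-- Points of the curve. -/
theorem ns_of {L : Type} [Field L] (h2 : (2 : L) ≠ 0) {a b c : L} (hd : disc a b c ≠ 0) {x y : L}
    (h : y ^ 2 = x ^ 3 + a * x ^ 2 + b * x + c) : (E a b c).toAffine.Nonsingular x y := by
  have hΔ : (E a b c).Δ ≠ 0 := by
    rw [disc_E]
    have h16 : (16 : L) = 2 ^ 4 := by norm_num
    rw [h16]
    exact mul_ne_zero (pow_ne_zero _ h2) hd
  refine (WeierstrassCurve.Affine.equation_iff_nonsingular_of_Δ_ne_zero hΔ).mp ?_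
  rw [WeierstrassCurve.Affine.equation_iff]
  simp only [E]
  linear_combination h

theorem inf3_thm : INF3Stmt := by
  intro L _ O π h f hf
  obtain ⟨a, b, c⟩ := f
  change disc a b c ≠ 0 at hf
  obtain ⟨N, hN⟩ := big_pt h a b c
  choose y hy using fun j : ℕ => hN (N + j) (by omega)
  have hns : ∀ j : ℕ, (E a b c).toAffine.Nonsingular (1 / (π ^ (N + j)) ^ 2) (y j) :=
    fun j => ns_of h.two.1 hf (hy j)
  refine Infinite.of_injective (fun j : ℕ => (Point.some _ _ (hns j) : PtT (a, b, c))) ?_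
  intro i j hij
  have h1 : 1 / (π ^ (N + i)) ^ 2 = 1 / (π ^ (N + j)) ^ 2 := by
    have h2 : (Point.some _ _ (hns i) : PtT (a, b, c)) = Point.some _ _ (hns j) := hij
    injection h2
  rw [one_div, one_div, _root_.inv_inj, ← pow_mul, ← pow_mul] at h1
  have h3 := pow_inj h h1
  omega

theorem lav_thm (hCLT : CLTStmt) (hTOR3 : TOR3Stmt) (hINF3 : INF3Stmt) : LAVStmt := by
  classical
  intro L _ O π h f hf c hc B hB
  obtain ⟨Q₀, g₀, hg₀⟩ := hc
  have : Infinite L := Infinite.of_injective _ (pow_inj h)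
  have hinf := hINF3 L O π h f hf
  have hfin := (hTOR3 L h.two.1 f hf).1
  -- the fibres are finite
  have hfib : ∀ Q : PtT f, {R : PtT f | Q₀ - (R + R + R) = Q}.Finite := by
    intro Q
    by_cases hne : {R : PtT f | Q₀ - (R + R + R) = Q}.Nonempty
    · obtain ⟨R₀, hR₀⟩ := hne
      have hR₀' : Q₀ - (R₀ + R₀ + R₀) = Q := hR₀
      refine (hfin.image (fun T => T + R₀)).subset ?_
      intro R hR
      have hR' : Q₀ - (R + R + R) = Q := hR
      refine ⟨R - R₀, ?_, sub_add_cancel R R₀⟩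
      change R - R₀ + (R - R₀) + (R - R₀) = 0
      have h3 : R + R + R = R₀ + R₀ + R₀ := by
        rw [← hR₀'] at hR'
        exact sub_right_inj.1 hR'
      have h4 : R - R₀ + (R - R₀) + (R - R₀) = (R + R + R) - (R₀ + R₀ + R₀) := by abel
      rw [h4, h3, sub_self]
    · rw [Set.not_nonempty_iff_eq_empty.1 hne]
      exact Set.finite_empty
  have hex : ∃ R : PtT f, Q₀ - (R + R + R) ∉ B := by
    by_contra hno
    push Not at hno
    have h5 : (Set.univ : Set (PtT f)) ⊆ ⋃ Q ∈ B, {R : PtT f | Q₀ - (R + R + R) = Q} := by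
      intro R _
      rw [Set.mem_iUnion₂]
      exact ⟨_, hno R, rfl⟩
    have h6 : (Set.univ : Set (PtT f)).Finite := (hB.biUnion fun Q _ => hfib Q).subset h5
    exact Set.infinite_univ h6
  obtain ⟨R, hR⟩ := hex
  obtain ⟨g, hg⟩ := hCLT L h.two.1 f hf Q₀ R
  exact ⟨_, hR, _, hg.symm.trans hg₀⟩

end Pool.Agent.H87.AV3B
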